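import Pool.Agent.W458.MF.EStm
import Pool.Agent.W475.MF.OORB

/-!
# Isometries of extended spaces with given characteristic polynomial in a coset (EORB)
-/

set_option autoImplicit false

open Polynomial Matrix

namespace Pool.Agent.W333.MF

open Pool.Agent.W521.Frob Pool.Agent.W458.MF Pool.Agent.W475.MF

/-- Elements of norm one in the algebra of `weilm (ρ ^ 2) u`. -/
theorem count_star {g l : ℕ} (hl : l.Prime) {ρ : ZMod l} (hρ : ρ ≠ 0)
    {u W : (ZMod l)[X]} (hW : W = weilm (ρ ^ 2) u) (hu : u.Monic) (hug : u.natDegree = g)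
    (hsq : Squarefree W) {a a' : AdjoinRoot W} (ha : a = AdjoinRoot.root W)
    (haa : a * a' = algebraMap (ZMod l) (AdjoinRoot W) (ρ ^ 2)) :
    {z : AdjoinRoot W | ∃ q : (ZMod l)[X], z = aeval a q ∧
      aeval a q * aeval a' q = 1}.ncard ≤ (2 * l) ^ g := by
  classical
  have : Fact l.Prime := ⟨hl⟩
  obtain ⟨hWm, hWd⟩ := (Pool.Agent.W101.MF.wm l hl (ρ ^ 2)).2.2.1 u hu
  rw [← hW] at hWm hWd
  have haW : ∀ q : (ZMod l)[X], aeval a q = AdjoinRoot.mk W q := by
    intro q; rw [ha, AdjoinRoot.aeval_eq]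
  have hmin : ∀ q : (ZMod l)[X], aeval a q = 0 → W ∣ q := by
    intro q hq
    rw [haW] at hq
    exact AdjoinRoot.mk_eq_zero.1 hq
  have hroot : aeval a W = 0 := by rw [haW, AdjoinRoot.mk_self]
  have hredS : IsReduced (AdjoinRoot W) := by
    constructor
    rintro x ⟨k, hk⟩
    obtain ⟨w, rfl⟩ := AdjoinRoot.mk_surjective x
    rw [← map_pow] at hk
    have h4 : IsRadical W :=
      (isRadical_iff_squarefree_of_ne_zero hWm.ne_zero).2 hsq
    exact AdjoinRoot.mk_eq_zero.2 (h4 k _ (AdjoinRoot.mk_eq_zero.1 hk))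
  have hfinS : Finite (AdjoinRoot W) := by
    have hfd := hWm.finite_adjoinRoot
    exact Module.finite_of_finite (ZMod l)
  obtain ⟨θ, hθ⟩ : ∃ θ, θ = a + a' := ⟨_, rfl⟩
  have hθA : a ^ 2 + algebraMap (ZMod l) _ (ρ ^ 2) = θ * a := by
    rw [← haa, hθ]; ring
  have hXC : aeval a (X ^ 2 + C (ρ ^ 2)) = θ * a := by
    rw [map_add, aeval_C, aeval_X_pow, hθA]
  have hweil : ∀ w : (ZMod l)[X], aeval a (weilm (ρ ^ 2) w) = aeval θ w * a ^ w.natDegree := by
    intro w
    unfold weilm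
    rw [map_sum, Polynomial.aeval_eq_sum_range (p := w) θ, Finset.sum_mul]
    refine Finset.sum_congr rfl fun j hj => ?_
    have hj' : j ≤ w.natDegree := by
      have := Finset.mem_range.1 hj
      omega
    obtain ⟨k, hk⟩ := Nat.exists_eq_add_of_le hj'
    rw [map_mul, map_mul, map_pow (aeval a) (X ^ 2 + C (ρ ^ 2)) j, hXC, aeval_X_pow, aeval_C,
      ← Algebra.smul_def, smul_mul_assoc, hk, Nat.add_sub_cancel_left, pow_add, mul_pow]
    congr 1
    ring
  have hinv : a * (algebraMap (ZMod l) _ ((ρ ^ 2)⁻¹) * a') = 1 := by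
    rw [mul_left_comm, haa, ← map_mul, inv_mul_cancel₀ (pow_ne_zero 2 hρ), map_one]
  have hAunit : ∀ (m : ℕ) (x : AdjoinRoot W), x * a ^ m = 0 → x = 0 := by
    intro m x hx
    have h1 : IsUnit a := IsUnit.of_mul_eq_one _ hinv
    exact (h1.pow m).mul_left_eq_zero.1 hx
  have hθu : aeval θ u = 0 := by
    apply hAunit u.natDegree
    rw [← hweil, ← hW]
    exact hroot
  have hker : ∀ w : (ZMod l)[X], aeval θ w = 0 → u ∣ w := by
    intro w hw
    rw [← Polynomial.modByMonic_eq_zero_iff_dvd hu]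
    by_contra hne0
    obtain ⟨w1, hw1⟩ : ∃ w1, w1 = w %ₘ u := ⟨_, rfl⟩
    rw [← hw1] at hne0
    have h1 : aeval θ w1 = 0 := by
      have h2 := Polynomial.modByMonic_add_div w u
      have h3 := congrArg (aeval θ) h2
      rw [map_add, map_mul, hθu, zero_mul, add_zero, hw] at h3
      rw [hw1]; exact h3
    have hdeg : w1.natDegree < g := by
      have h5 := Polynomial.degree_modByMonic_lt w hu
      rw [← hw1, Polynomial.degree_eq_natDegree hne0, Polynomial.degree_eq_natDegree hu.ne_zero,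
        hug] at h5
      exact_mod_cast h5
    obtain ⟨w2, hw2⟩ : ∃ w2, w2 = C (w1.leadingCoeff⁻¹) * w1 := ⟨_, rfl⟩
    have hlc : w1.leadingCoeff ≠ 0 := Polynomial.leadingCoeff_ne_zero.2 hne0
    have hw2m : w2.Monic := by
      rw [hw2, Polynomial.Monic, Polynomial.leadingCoeff_mul, Polynomial.leadingCoeff_C,
        inv_mul_cancel₀ hlc]
    have hw2d : w2.natDegree = w1.natDegree := by
      rw [hw2, Polynomial.natDegree_C_mul (inv_ne_zero hlc)]
    have h6 : aeval θ w2 = 0 := by rw [hw2, map_mul, h1, mul_zero]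
    have h7 : aeval a (weilm (ρ ^ 2) w2) = 0 := by rw [hweil, h6, zero_mul]
    obtain ⟨h8, h9⟩ := (Pool.Agent.W101.MF.wm l hl (ρ ^ 2)).2.2.1 w2 hw2m
    have h10 := Polynomial.natDegree_le_of_dvd (hmin _ h7) h8.ne_zero
    rw [hWd, h9, hw2d] at h10
    omega
  -- the algebra
  let ψ : AdjoinRoot u →ₐ[ZMod l] AdjoinRoot W :=
    Ideal.Quotient.liftₐ (Ideal.span {u}) (aeval θ) (by
      intro a ha
      obtain ⟨b, rfl⟩ := Ideal.mem_span_singleton.1 ha
      rw [map_mul, hθu, zero_mul])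
  have hψ : ∀ w : (ZMod l)[X], ψ (AdjoinRoot.mk u w) = aeval θ w := by
    intro w
    exact Ideal.Quotient.lift_mk _ _ _
  have hψinj : Function.Injective ψ := by
    rw [injective_iff_map_eq_zero]
    intro x hx
    obtain ⟨w, rfl⟩ := AdjoinRoot.mk_surjective x
    rw [hψ] at hx
    exact AdjoinRoot.mk_eq_zero.2 (hker w hx)
  have hred : IsReduced (AdjoinRoot u) := isReduced_of_injective ψ.toRingHom hψinj
  let pb := AdjoinRoot.powerBasis hu.ne_zero
  have hpb : pb.dim = g := by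
    rw [← hug]; rfl
  let b : Module.Basis (Fin g) (ZMod l) (AdjoinRoot u) := pb.basis.reindex (finCongr hpb)
  have hfin : Finite (AdjoinRoot u) := Finite.of_equiv _ b.equivFun.symm.toEquiv
  have hcard : Nat.card (AdjoinRoot u) = Nat.card (ZMod l) ^ g := by
    rw [Nat.card_congr b.equivFun.toEquiv, Nat.card_fun, Nat.card_fin]
  obtain ⟨t, ht⟩ : ∃ t : AdjoinRoot u, t = ρ⁻¹ • AdjoinRoot.root u := ⟨_, rfl⟩
  obtain ⟨B, hB⟩ : ∃ B, B = ρ⁻¹ • a := ⟨_, rfl⟩
  obtain ⟨Bi, hBi⟩ : ∃ Bi, Bi = ρ⁻¹ • a' := ⟨_, rfl⟩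
  have haB : a = ρ • B := by rw [hB, smul_smul, mul_inv_cancel₀ hρ, one_smul]
  have haBi : a' = ρ • Bi := by rw [hBi, smul_smul, mul_inv_cancel₀ hρ, one_smul]
  have hBBi : B * Bi = 1 := by
    rw [hB, hBi, smul_mul_smul_comm, haa, Algebra.smul_def, ← map_mul]
    have : ρ⁻¹ * ρ⁻¹ * ρ ^ 2 = 1 := by field_simp
    rw [this, map_one]
  have hψt : ψ t = B + Bi := by
    have h1 : ψ (AdjoinRoot.root u) = θ := by
      have := hψ X
      rwa [aeval_X, AdjoinRoot.mk_X] at this
    rw [ht, map_smul, h1, hθ, hB, hBi, smul_add]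
  have hB2 : B * B = ψ t * B - 1 := by
    rw [hψt, add_mul, mul_comm Bi, hBBi]; ring
  have hBi2 : Bi * Bi = ψ t * Bi - 1 := by
    rw [hψt, add_mul, hBBi]; ring
  have hpoly : ∀ q : (ZMod l)[X], ∃ x y : AdjoinRoot u, aeval a q = ψ x + ψ y * B ∧
      aeval a' q = ψ x + ψ y * Bi := by
    have hpow : ∀ k : ℕ, ∃ x y : AdjoinRoot u, a ^ k = ψ x + ψ y * B ∧
        a' ^ k = ψ x + ψ y * Bi := by
      intro k
      induction k with
      | zero => exact ⟨1, 0, by rw [map_one, map_zero, zero_mul, add_zero, pow_zero],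
          by rw [map_one, map_zero, zero_mul, add_zero, pow_zero]⟩
      | succ k ih =>
        obtain ⟨x, y, hxy, hxy'⟩ := ih
        refine ⟨-(ρ • y), ρ • (x + y * t), ?_, ?_⟩
        · rw [pow_succ, hxy, haB, mul_smul_comm, add_mul, mul_assoc, hB2, map_neg, map_smul,
            map_smul, map_add, map_mul, smul_mul_assoc, ← smul_neg, ← smul_add]
          congr 1
          ring
        · rw [pow_succ, hxy', haBi, mul_smul_comm, add_mul, mul_assoc, hBi2, map_neg, map_smul,
            map_smul, map_add, map_mul, smul_mul_assoc, ← smul_neg, ← smul_add]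
          congr 1
          ring
    intro q
    induction q using Polynomial.induction_on' with
    | add p q hp hq =>
      obtain ⟨x, y, h1, h1'⟩ := hp
      obtain ⟨x', y', h2, h2'⟩ := hq
      refine ⟨x + x', y + y', ?_, ?_⟩
      · rw [map_add, h1, h2, map_add, map_add]; ring
      · rw [map_add, h1', h2', map_add, map_add]; ring
    | monomial k c =>
      obtain ⟨x, y, h1, h1'⟩ := hpow k
      refine ⟨c • x, c • y, ?_, ?_⟩
      · rw [aeval_monomial, ← Algebra.smul_def, h1, map_smul, map_smul, smul_mul_assoc, smul_add]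
      · rw [aeval_monomial, ← Algebra.smul_def, h1', map_smul, map_smul, smul_mul_assoc, smul_add]
  have hcount := Pool.Agent.W337.MF.count_pairs hcard (1 : ZMod l) t
  rw [Nat.card_zmod] at hcount
  refine le_trans ?_ hcount
  have hsub : {z : AdjoinRoot W | ∃ q : (ZMod l)[X], z = aeval a q ∧
      aeval a q * aeval a' q = 1} ⊆
      (fun p : AdjoinRoot u × AdjoinRoot u => ψ p.1 + ψ p.2 * B) ''
        {p : AdjoinRoot u × AdjoinRoot u | (p.1 + t * p.2) * p.1 + (1 : ZMod l) • (p.2 * p.2) = 1}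
      := by
    rintro z ⟨q, hz, hq⟩
    obtain ⟨x, y, h1, h2⟩ := hpoly q
    refine ⟨(x, y), ?_, by rw [hz, h1]⟩
    rw [h1, h2] at hq
    have h3 : (ψ x + ψ y * B) * (ψ x + ψ y * Bi) = ψ ((x + t * y) * x + y * y) := by
      have e : (ψ x + ψ y * B) * (ψ x + ψ y * Bi) =
          ψ x * ψ x + (B + Bi) * (ψ y * ψ x) + ψ y * ψ y * (B * Bi) := by ring
      rw [e, hBBi, ← hψt, ← map_mul, ← map_mul, ← map_mul, mul_one, ← map_mul, ← map_add,
        ← map_add]
      congr 1
      ring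
    rw [h3] at hq
    have h4 : (x + t * y) * x + y * y = 1 := by
      apply hψinj
      rw [hq, map_one]
    rw [Set.mem_ofPred_eq, one_smul]
    exact h4
  exact (Set.ncard_le_ncard hsub (Set.toFinite _)).trans (Set.ncard_image_le (Set.toFinite _))

/-- Signs. -/
theorem count_sign {l : ℕ} (hl : l.Prime) (e : ℕ) :
    {f : Fin e → ZMod l | ∀ i, f i * f i = 1}.ncard ≤ 2 ^ e := by
  have : Fact l.Prime := ⟨hl⟩
  have hsub : {f : Fin e → ZMod l | ∀ i, f i * f i = 1} ⊆
      (fun (s : Fin e → Bool) (i : Fin e) => if s i then (1 : ZMod l) else -1) '' Set.univ := by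
    intro f hf
    refine ⟨fun i => decide (f i = 1), trivial, ?_⟩
    funext i
    have h1 := hf i
    by_cases h : f i = 1
    · simp [h]
    · have h2 : f i = -1 := by
        rcases mul_self_eq_one_iff.1 h1 with h' | h'
        · exact absurd h' h
        · exact h'
      simp only [h, decide_false, Bool.false_eq_true, if_false]
      exact h2.symm
  refine (Set.ncard_le_ncard hsub (Set.toFinite _)).trans
    ((Set.ncard_image_le (Set.toFinite _)).trans (le_of_eq ?_))
  rw [Set.ncard_univ, Nat.card_fun, Nat.card_fin, Nat.card_eq_fintype_card, Fintype.card_bool]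

/-- The centralizer of an isometry with squarefree characteristic polynomial. -/
theorem central_count {n : Type} [Fintype n] [DecidableEq n] [Nonempty n] {g l e : ℕ}
    (hl : l.Prime) {ρ : ZMod l} (hρ : ρ ≠ 0) (c : Fin e → ZMod l) (hc : Function.Injective c)
    (hc2 : ∀ i, c i * c i = ρ ^ 2)
    {u : (ZMod l)[X]} (hu : u.Monic) (hug : u.natDegree = g)
    (M Mi : Matrix n n (ZMod l)) (hM : M * Mi = 1)
    (B : Matrix n n (ZMod l)) (hB : B * M * Bᵀ = M)
    (hchar : (ρ • B).charpoly = weilm (ρ ^ 2) u * ∏ i, (X - C (c i)))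
    (hsq : Squarefree (weilm (ρ ^ 2) u * ∏ i, (X - C (c i)))) :
    {P : Matrix n n (ZMod l) | P * M * Pᵀ = M ∧ P * B = B * P}.ncard ≤ 2 ^ e * (2 * l) ^ g := by
  classical
  have : Fact l.Prime := ⟨hl⟩
  have hMi : Mi * M = 1 := mul_eq_one_comm.1 hM
  obtain ⟨hWm, hWd⟩ := (Pool.Agent.W101.MF.wm l hl (ρ ^ 2)).2.2.1 u hu
  obtain ⟨A, hA⟩ : ∃ A, A = ρ • B := ⟨_, rfl⟩
  rw [← hA] at hchar
  have hsqA : Squarefree A.charpoly := by rw [hchar]; exact hsq
  obtain ⟨Bi, hBi⟩ : ∃ Bi, Bi = M * Bᵀ * Mi := ⟨_, rfl⟩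
  have hBBi : B * Bi = 1 := by
    rw [hBi, ← Matrix.mul_assoc, ← Matrix.mul_assoc, hB, hM]
  have hBiB : Bi * B = 1 := mul_eq_one_comm.1 hBBi
  obtain ⟨A', hA'⟩ : ∃ A', A' = ρ • Bi := ⟨_, rfl⟩
  have hAA' : A * A' = algebraMap (ZMod l) _ (ρ ^ 2) := by
    rw [hA, hA', Matrix.smul_mul, Matrix.mul_smul, hBBi, smul_smul,
      Algebra.algebraMap_eq_smul_one, pow_two]
  have hA'A : A' * A = algebraMap (ZMod l) _ (ρ ^ 2) := by
    rw [hA, hA', Matrix.smul_mul, Matrix.mul_smul, hBiB, smul_smul,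
      Algebra.algebraMap_eq_smul_one, pow_two]
  obtain ⟨p', hp'⟩ := comm_poly A hsqA A' (by rw [hAA', hA'A])
  have hdvd1 : A.charpoly ∣ X * p' - C (ρ ^ 2) := by
    apply charpoly_dvd A hsqA
    rw [map_sub, map_mul, aeval_X, ← hp', hAA', aeval_C, sub_self]
  -- the star
  have hstar : ∀ q : (ZMod l)[X], M * (aeval A q)ᵀ * Mi = aeval A' q := by
    intro q
    have hpow : ∀ k : ℕ, M * (A ^ k)ᵀ * Mi = A' ^ k := by
      intro k
      induction k with
      | zero => rw [pow_zero, Matrix.transpose_one, Matrix.mul_one, hM, pow_zero]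
      | succ k ih =>
        have h1 : M * Aᵀ * Mi = A' := by
          rw [hA, hA', Matrix.transpose_smul, Matrix.mul_smul, Matrix.smul_mul, ← hBi]
        rw [pow_succ, Matrix.transpose_mul, pow_succ']
        calc M * (Aᵀ * (A ^ k)ᵀ) * Mi = (M * Aᵀ) * 1 * ((A ^ k)ᵀ * Mi) := by
              rw [Matrix.mul_one]; simp only [Matrix.mul_assoc]
          _ = (M * Aᵀ) * (Mi * M) * ((A ^ k)ᵀ * Mi) := by rw [hMi]
          _ = (M * Aᵀ * Mi) * (M * (A ^ k)ᵀ * Mi) := by simp only [Matrix.mul_assoc]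
          _ = A' * A' ^ k := by rw [h1, ih]
    induction q using Polynomial.induction_on' with
    | add p q hp hq =>
      rw [map_add, Matrix.transpose_add, Matrix.mul_add, Matrix.add_mul, hp, hq, map_add]
    | monomial k a =>
      rw [aeval_monomial, ← Algebra.smul_def, Matrix.transpose_smul, Matrix.mul_smul,
        Matrix.smul_mul, hpow, aeval_monomial, ← Algebra.smul_def]
  have hW : weilm (ρ ^ 2) u ∣ A.charpoly := by rw [hchar]; exact dvd_mul_right _ _
  have hE : (∏ i, (X - C (c i))) ∣ A.charpoly := by rw [hchar]; exact dvd_mul_left _ _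
  have hE' : ∀ i, (X - C (c i)) ∣ A.charpoly := fun i =>
    (Finset.dvd_prod_of_mem _ (Finset.mem_univ i)).trans hE
  obtain ⟨a, ha⟩ : ∃ a, a = AdjoinRoot.root (weilm (ρ ^ 2) u) := ⟨_, rfl⟩
  obtain ⟨a', ha'⟩ : ∃ a', a' = AdjoinRoot.mk (weilm (ρ ^ 2) u) p' := ⟨_, rfl⟩
  have haW : ∀ q : (ZMod l)[X], aeval a q = AdjoinRoot.mk (weilm (ρ ^ 2) u) q := by
    intro q; rw [ha, AdjoinRoot.aeval_eq]
  have haa : a * a' = algebraMap (ZMod l) (AdjoinRoot (weilm (ρ ^ 2) u)) (ρ ^ 2) := by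
    have h1 : AdjoinRoot.mk (weilm (ρ ^ 2) u) (X * p' - C (ρ ^ 2)) = 0 :=
      AdjoinRoot.mk_eq_zero.2 (hW.trans hdvd1)
    rw [map_sub, map_mul, AdjoinRoot.mk_X, ← ha, ← ha', sub_eq_zero] at h1
    rw [h1]
    rfl
  have hcs := count_star hl hρ rfl hu hug hsq.of_mul_left ha haa
  -- the elements of the centralizer
  have hkey : ∀ P : Matrix n n (ZMod l), ∃ q : (ZMod l)[X], P * M * Pᵀ = M ∧ P * B = B * P →
      P = aeval A q ∧ A.charpoly ∣ q * q.comp p' - 1 := by
    intro P
    by_cases hP : P * M * Pᵀ = M ∧ P * B = B * P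
    · have hPA : P * A = A * P := by rw [hA, Matrix.mul_smul, Matrix.smul_mul, hP.2]
      obtain ⟨q, hq⟩ := comm_poly A hsqA P hPA
      refine ⟨q, fun _ => ⟨hq, ?_⟩⟩
      apply charpoly_dvd A hsqA
      have h1 : P * (M * Pᵀ * Mi) = 1 := by
        rw [← Matrix.mul_assoc, ← Matrix.mul_assoc, hP.1, hM]
      rw [hq, hstar, hp', ← Polynomial.aeval_comp, ← map_mul] at h1
      rw [map_sub, map_one, h1, sub_self]
    · exact ⟨0, fun h => absurd h hP⟩
  choose q hq using hkey
  have hfinM : Finite (Matrix n n (ZMod l)) := inferInstanceAs (Finite (n → n → ZMod l))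
  have hfinS : Finite (AdjoinRoot (weilm (ρ ^ 2) u)) := by
    have hfd := hWm.finite_adjoinRoot
    exact Module.finite_of_finite (ZMod l)
  set T : Set (AdjoinRoot (weilm (ρ ^ 2) u)) :=
    {z | ∃ q : (ZMod l)[X], z = aeval a q ∧ aeval a q * aeval a' q = 1} with hT
  set G : Set (Fin e → ZMod l) := {f | ∀ i, f i * f i = 1} with hG
  have hfinal : {P : Matrix n n (ZMod l) | P * M * Pᵀ = M ∧ P * B = B * P}.ncard ≤
      (T ×ˢ G).ncard := by
    apply Set.ncard_le_ncard_of_injOn (fun P => (aeval a (q P), fun i => (q P).eval (c i)))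
      _ _ (Set.toFinite _)
    · intro P hP
      obtain ⟨h1, h2⟩ := hq P hP
      refine ⟨⟨q P, rfl, ?_⟩, ?_⟩
      · have h3 : AdjoinRoot.mk (weilm (ρ ^ 2) u) (q P * (q P).comp p' - 1) = 0 :=
          AdjoinRoot.mk_eq_zero.2 (hW.trans h2)
        rw [← haW, map_sub, map_mul, map_one, Polynomial.aeval_comp, haW p', ← ha',
          sub_eq_zero] at h3
        exact h3
      · intro i
        have h3 : c i ≠ 0 := by
          intro h
          have := hc2 i
          rw [h, mul_zero] at this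
          exact pow_ne_zero 2 hρ this.symm
        have h4 : p'.eval (c i) = c i := by
          obtain ⟨w, hw⟩ := (hE' i).trans hdvd1
          have h5 := congrArg (Polynomial.eval (c i)) hw
          rw [eval_sub, eval_mul, eval_X, eval_C, eval_mul, eval_sub, eval_X, eval_C, sub_self,
            zero_mul, ← hc2 i, sub_eq_zero] at h5
          exact mul_left_cancel₀ h3 h5
        obtain ⟨w, hw⟩ := (hE' i).trans h2
        have h5 := congrArg (Polynomial.eval (c i)) hw
        rw [eval_sub, eval_mul, eval_comp, h4, eval_one, eval_mul, eval_sub, eval_X, eval_C,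
          sub_self, zero_mul, sub_eq_zero] at h5
        exact h5
    · intro P hP P' hP' hPP
      obtain ⟨h1, _⟩ := hq P hP
      obtain ⟨h1', _⟩ := hq P' hP'
      have h2 : aeval a (q P) = aeval a (q P') := congrArg Prod.fst hPP
      have h3 : (fun i => (q P).eval (c i)) = fun i => (q P').eval (c i) := congrArg Prod.snd hPP
      have h4 : weilm (ρ ^ 2) u ∣ q P - q P' := by
        apply AdjoinRoot.mk_eq_zero.1
        rw [← haW, map_sub, h2, sub_self]
      have h5 : (∏ i, (X - C (c i))) ∣ q P - q P' := by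
        apply Fintype.prod_dvd_of_coprime (Polynomial.pairwise_coprime_X_sub_C hc)
        intro i
        rw [Polynomial.dvd_iff_isRoot, Polynomial.IsRoot, eval_sub, sub_eq_zero]
        exact congrFun h3 i
      have h6 : A.charpoly ∣ q P - q P' := by
        rw [hchar]
        exact (isRelPrime_iff_isCoprime.1 (IsRelPrime.of_squarefree_mul hsq)).mul_dvd h4 h5
      obtain ⟨w, hw⟩ := h6
      have h7 := congrArg (aeval A) hw
      rw [map_sub, map_mul, Matrix.aeval_self_charpoly, zero_mul, ← h1, ← h1', sub_eq_zero] at h7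
      exact h7
  refine hfinal.trans ?_
  rw [Set.ncard_prod, mul_comm]
  exact Nat.mul_le_mul (count_sign hl e) hcs

theorem iso_unit {n : Type} [Fintype n] [DecidableEq n] {l : ℕ} {M Mi : Matrix n n (ZMod l)}
    (hM : M * Mi = 1) (P : Matrix n n (ZMod l)) (h : P * M * Pᵀ = M) :
    ∃ U ∈ isomOf M, U.val = P := by
  have h1 : P * (M * Pᵀ * Mi) = 1 := by
    rw [← Matrix.mul_assoc, ← Matrix.mul_assoc, h, hM]
  have h2 : (M * Pᵀ * Mi) * P = 1 := mul_eq_one_comm.1 h1
  exact ⟨⟨P, M * Pᵀ * Mi, h1, h2⟩, h, rfl⟩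

/-- Orbits and stabilizers. -/
theorem orbit {n : Type} [Fintype n] [DecidableEq n] {l : ℕ} (hl : l.Prime)
    {M Mi : Matrix n n (ZMod l)} (hM : M * Mi = 1) (D : (Matrix n n (ZMod l))ˣ)
    (hD : D ∈ isomOf M) (r : ZMod l) (χ : (ZMod l)[X]) (N : ℕ) (B0 : Matrix n n (ZMod l))
    (hB0 : ∃ ω ∈ ⁅isomOf M, isomOf M⁆, B0 = D.val * ω.val) (hB0c : (r • B0).charpoly = χ)
    (hZ : {P : Matrix n n (ZMod l) | P * M * Pᵀ = M ∧ P * B0 = B0 * P}.ncard ≤ N) :
    {B | ∃ ω ∈ ⁅isomOf M, isomOf M⁆, B = D.val * ω.val}.ncard ≤ N *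
      {B | (∃ ω ∈ ⁅isomOf M, isomOf M⁆, B = D.val * ω.val) ∧ (r • B).charpoly = χ}.ncard := by
  classical
  have : Fact l.Prime := ⟨hl⟩
  have hfinM : Finite (Matrix n n (ZMod l)) := inferInstanceAs (Finite (n → n → ZMod l))
  have : Fintype (Matrix n n (ZMod l)) := Fintype.ofFinite _
  have hle : ⁅isomOf M, isomOf M⁆ ≤ isomOf M := by
    rw [Subgroup.commutator_le]
    intro x hx y hy
    rw [commutatorElement_def]
    exact (isomOf M).mul_mem ((isomOf M).mul_mem ((isomOf M).mul_mem hx hy)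
      ((isomOf M).inv_mem hx)) ((isomOf M).inv_mem hy)
  obtain ⟨ω0, hω0, hB0e⟩ := hB0
  have hω0' : ω0 ∈ isomOf M := hle hω0
  set Gs : Set (Matrix n n (ZMod l)) := {P | P * M * Pᵀ = M} with hGs
  have hmem : ∀ U ∈ isomOf M, U.val ∈ Gs := fun U hU => hU
  have hB0u : B0 = (D * ω0).val := by rw [hB0e, Units.val_mul]
  -- (1)
  have hc1 : {B | ∃ ω ∈ ⁅isomOf M, isomOf M⁆, B = D.val * ω.val}.ncard ≤ Gs.ncard := by
    apply Set.ncard_le_ncard _ (Set.toFinite _)
    rintro B ⟨ω, hω, rfl⟩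
    rw [← Units.val_mul]
    exact hmem _ ((isomOf M).mul_mem hD (hle hω))
  refine hc1.trans ?_
  set Ts : Set (Matrix n n (ZMod l)) :=
    {B | (∃ ω ∈ ⁅isomOf M, isomOf M⁆, B = D.val * ω.val) ∧ (r • B).charpoly = χ} with hTs
  rw [Set.ncard_eq_toFinset_card' Gs, Set.ncard_eq_toFinset_card' Ts]
  have hdet : ∀ P ∈ Gs, IsUnit P.det := by
    intro P hP
    obtain ⟨U, _, hU⟩ := iso_unit hM P hP
    rw [← hU]
    exact (Matrix.isUnit_iff_isUnit_det _).1 U.isUnit
  apply Finset.card_le_mul_card_image_of_maps_to (f := fun P => P * B0 * P⁻¹)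
  · intro P hP
    rw [Set.mem_toFinset] at hP ⊢
    obtain ⟨U, hU, hUv⟩ := iso_unit hM P hP
    have hPi : P⁻¹ = (U⁻¹).val := by
      rw [← hUv, Matrix.coe_units_inv]
    have e1 : P * B0 * P⁻¹ = (U * (D * ω0) * U⁻¹).val := by
      rw [Units.val_mul, Units.val_mul, hUv, ← hB0u, hPi]
    refine ⟨?_, ?_⟩
    · refine ⟨D⁻¹ * (U * (D * ω0) * U⁻¹), ?_, ?_⟩
      · have c1 := Subgroup.commutator_mem_commutator ((isomOf M).inv_mem hD) hU
        have c2 := Subgroup.commutator_mem_commutator hU hω0'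
        rw [commutatorElement_def] at c1 c2
        have e2 : D⁻¹ * (U * (D * ω0) * U⁻¹) =
            (D⁻¹ * U * (D⁻¹)⁻¹ * U⁻¹) * ((U * ω0 * U⁻¹ * ω0⁻¹) * ω0) := by
          group
        rw [e2]
        exact Subgroup.mul_mem _ c1 (Subgroup.mul_mem _ c2 hω0)
      · rw [e1, ← Units.val_mul, mul_inv_cancel_left]
    · have e3 : r • (P * B0 * P⁻¹) = P * (r • B0) * P⁻¹ := by
        rw [Matrix.mul_smul, Matrix.smul_mul]
      change (r • (P * B0 * P⁻¹)).charpoly = _
      rw [e3, ← hB0c, Matrix.mul_assoc, Matrix.charpoly_mul_comm, Matrix.mul_assoc,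
        Matrix.nonsing_inv_mul _ (hdet P hP), Matrix.mul_one]
  · intro A hA
    by_cases hne : ∃ P1, P1 ∈ Gs ∧ P1 * B0 * P1⁻¹ = A
    · obtain ⟨P1, hP1, hP1A⟩ := hne
      refine le_trans ?_ hZ
      rw [Set.ncard_eq_toFinset_card']
      obtain ⟨U1, hU1, hU1v⟩ := iso_unit hM P1 hP1
      have hP1u := hdet P1 hP1
      have hP1i : P1⁻¹ = (U1⁻¹).val := by
        rw [← hU1v, Matrix.coe_units_inv]
      apply Finset.card_le_card_of_injOn (fun P => P1⁻¹ * P)
      · intro P hP
        simp only [Finset.coe_filter, Set.mem_toFinset, Set.mem_ofPred_eq, Finset.mem_coe] at hP ⊢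
        obtain ⟨hP2, hP3⟩ := hP
        have hPu := hdet P hP2
        obtain ⟨U, hU, hUv⟩ := iso_unit hM P hP2
        refine ⟨?_, ?_⟩
        · have := hmem _ ((isomOf M).mul_mem ((isomOf M).inv_mem hU1) hU)
          rw [Units.val_mul, hUv, ← hP1i] at this
          exact this
        · have h7 : P * B0 = A * P := by
            rw [← hP3, Matrix.mul_assoc, Matrix.nonsing_inv_mul _ hPu, Matrix.mul_one]
          have h8 : P1 * B0 = A * P1 := by
            rw [← hP1A, Matrix.mul_assoc, Matrix.nonsing_inv_mul _ hP1u, Matrix.mul_one]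
          have h9 : B0 * P1⁻¹ = P1⁻¹ * A := by
            calc B0 * P1⁻¹ = (P1⁻¹ * P1) * B0 * P1⁻¹ := by
                  rw [Matrix.nonsing_inv_mul _ hP1u, Matrix.one_mul]
              _ = P1⁻¹ * (P1 * B0) * P1⁻¹ := by simp only [Matrix.mul_assoc]
              _ = P1⁻¹ * A * (P1 * P1⁻¹) := by rw [h8]; simp only [Matrix.mul_assoc]
              _ = P1⁻¹ * A := by rw [Matrix.mul_nonsing_inv _ hP1u, Matrix.mul_one]
          rw [Matrix.mul_assoc, h7, ← Matrix.mul_assoc, ← Matrix.mul_assoc, h9]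
      · intro P _ P' _ hPP
        have h5 : P1 * (P1⁻¹ * P) = P1 * (P1⁻¹ * P') := congrArg (fun Z => P1 * Z) hPP
        rwa [← Matrix.mul_assoc, ← Matrix.mul_assoc, Matrix.mul_nonsing_inv _ hP1u, Matrix.one_mul,
          Matrix.one_mul] at h5
    · have h5 : (Finset.filter (fun P => P * B0 * P⁻¹ = A) Gs.toFinset) = ∅ := by
        rw [Finset.filter_eq_empty_iff]
        intro P hP hPA
        exact hne ⟨P, Set.mem_toFinset.1 hP, hPA⟩
      rw [h5, Finset.card_empty]
      exact Nat.zero_le _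

/-- EORB. -/
theorem eorb : St_EORB := by
  classical
  intro g l r e δ κ u hg hl hl2 hlr he hu hug hsq ⟨B0, hB0, hB0c⟩
  have : Fact l.Prime := ⟨hl⟩
  have hr : (r : ZMod l) ≠ 0 := by
    intro h0
    exact hlr ((ZMod.natCast_eq_zero_iff r l).1 h0)
  have h2 : (2 : ZMod l) ≠ 0 := by
    intro h0
    have h1 : ((2 : ℕ) : ZMod l) = 0 := by exact_mod_cast h0
    have h3 := (ZMod.natCast_eq_zero_iff 2 l).1 h1
    exact hl2 ((Nat.prime_dvd_prime_iff_eq hl Nat.prime_two).1 h3)
  -- the form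
  set d : Fin e → ZMod l := fun i => if i.val = 0 then 2 else 2 * (δ : ZMod l) with hd
  have hd0 : ∀ i, d i ≠ 0 := by
    intro i
    simp only [hd]
    split_ifs
    · exact h2
    · exact mul_ne_zero h2 δ.ne_zero
  have hM : extForm g l e δ * Matrix.fromBlocks (splitForm g l) 0 0
      (Matrix.diagonal fun i => (d i)⁻¹) = 1 := by
    rw [extForm, Matrix.fromBlocks_multiply, splitForm_mul]
    simp only [Matrix.mul_zero, Matrix.zero_mul, add_zero, zero_add,
      Matrix.diagonal_mul_diagonal]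
    have h1 : (Matrix.diagonal fun i : Fin e => (if i.val = 0 then 2 else 2 * (δ : ZMod l)) *
        (d i)⁻¹) = (1 : Matrix (Fin e) (Fin e) (ZMod l)) := by
      rw [← Matrix.diagonal_one]
      congr 1
      funext i
      exact mul_inv_cancel₀ (hd0 i)
    rw [h1, Matrix.fromBlocks_one]
  -- the diagonal element
  have hDM : extElt g l e κ * extForm g l e δ * (extElt g l e κ)ᵀ = extForm g l e δ := by
    rw [extElt, extForm, Matrix.fromBlocks_transpose, Matrix.fromBlocks_multiply,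
      Matrix.fromBlocks_multiply]
    simp only [Matrix.mul_zero, Matrix.zero_mul, add_zero, zero_add, Matrix.transpose_zero,
      Matrix.diagonal_transpose, Matrix.diagonal_mul_diagonal]
    rw [diag_iso]
    congr 1
    congr 1
    funext i
    split_ifs
    · ring
    · ring
  obtain ⟨D, hD, hDv⟩ := iso_unit hM _ hDM
  have hcos : extCoset g l e δ κ =
      {B | ∃ ω ∈ ⁅isomOf (extForm g l e δ), isomOf (extForm g l e δ)⁆, B = D.val * ω.val} := by
    rw [hDv]; rfl
  have hne : Nonempty ((Fin g ⊕ Fin g) ⊕ Fin e) := ⟨Sum.inl (Sum.inl ⟨0, hg⟩)⟩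
  have hB0' : ∃ ω ∈ ⁅isomOf (extForm g l e δ), isomOf (extForm g l e δ)⁆,
      B0 = D.val * ω.val := by
    rw [hcos] at hB0; exact hB0
  have hB0G : B0 * extForm g l e δ * B0ᵀ = extForm g l e δ := by
    obtain ⟨ω, hω, rfl⟩ := hB0'
    have hle : ⁅isomOf (extForm g l e δ), isomOf (extForm g l e δ)⁆ ≤
        isomOf (extForm g l e δ) := by
      rw [Subgroup.commutator_le]
      intro x hx y hy
      rw [commutatorElement_def]
      exact Subgroup.mul_mem _ (Subgroup.mul_mem _ (Subgroup.mul_mem _ hx hy)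
        (Subgroup.inv_mem _ hx)) (Subgroup.inv_mem _ hy)
    rw [← Units.val_mul]
    exact Subgroup.mul_mem _ hD (hle hω)
  have hinj : Function.Injective (fun i : Fin e => if i.val = 0 then (r : ZMod l) else -(r : ZMod l))
      := by
    have hrr : (r : ZMod l) ≠ -(r : ZMod l) := by
      intro h
      have : 2 * (r : ZMod l) = 0 := by linear_combination h
      rcases mul_eq_zero.1 this with h' | h'
      · exact h2 h'
      · exact hr h'
    intro i j hij
    simp only at hij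
    have hi := i.2
    have hj := j.2
    by_cases h1 : i.val = 0
    · by_cases h3 : j.val = 0
      · exact Fin.ext (h1.trans h3.symm)
      · rw [if_pos h1, if_neg h3] at hij
        exact absurd hij hrr
    · by_cases h3 : j.val = 0
      · rw [if_neg h1, if_pos h3] at hij
        exact absurd hij.symm hrr
      · apply Fin.ext
        omega
  have hc2 : ∀ i : Fin e, (if i.val = 0 then (r : ZMod l) else -(r : ZMod l)) *
      (if i.val = 0 then (r : ZMod l) else -(r : ZMod l)) = (r : ZMod l) ^ 2 := by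
    intro i
    split_ifs <;> ring
  have hZ := central_count hl hr _ hinj hc2 hu hug _ _ hM B0 hB0G hB0c hsq
  have hfin := orbit hl hM D hD (r : ZMod l) _ _ B0 hB0' hB0c hZ
  rw [hcos]
  refine hfin.trans (Nat.mul_le_mul_right _ (Nat.mul_le_mul_right _ ?_))
  rcases he with rfl | rfl <;> norm_num

end Pool.Agent.W333.MF
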